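import Pool.Agent.H75.OM.TD

/-!
# Row NWP: random bits do not help for a hard language
-/

set_option autoImplicit false

namespace Pool.Agent.H85.OMN

open Finset Pool.Agent.H6.NB Pool.Agent.H70.OQ Pool.Agent.H70.EH Pool.Agent.H70.EI Pool.Agent.H78.XQ
open Pool.Agent.H75.OM

open Classical in
theorem pf_NWP (h1 : T_MNS) (h2 : T_DES) (h3 : T_NWG) (h4 : T_ENC) (h5 : T_CLQ) (h6 : T_LFC)
    (h7 : T_SIM) (h8 : T_SMB) (h9 : T_FNC) : T_NWP := by
  intro k n s e L p hnum hns hL hp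
  obtain ⟨ω, hω⟩ : ∃ ω : ℕ, ω = omg (lam k s) := ⟨_, rfl⟩
  obtain ⟨hn1, hn2, -, l, w, hl, hw, hlw, hbig, hsz⟩ := hnum
  rw [← hω] at hn1 hn2 hbig hsz hp ⊢
  obtain ⟨M, hM⟩ := h2 l (s + ω + 2) hl
  have hS1 : 1 ≤ 2 ^ 2 ^ mm k s := Nat.one_le_two_pow
  have hleaf : ∀ v : List Bool, v.length ≤ s → Cl (St s × Fin (ω + 1)) (2 ^ 2 ^ mm k s) 2
      fun y => OSp p (ex2 s ω y) v := by
    intro v hv
    exact h6 _ s ω (dic k s) p v hp (Nat.pow_le_pow_right (by norm_num) (by omega)) hv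
  have hmm : (k + 4) * (s + 2) ^ 4 ≤ 2 ^ mm k s :=
    (Nat.lt_pow_succ_log_self (by norm_num) _).le
  have hcl := h5 (St s × Fin (ω + 1)) (2 ^ 2 ^ mm k s) 2 k n s (fun y => OSp p (ex2 s ω y)) L
    (Nat.pow_le_pow_right (by norm_num) hmm) hns hleaf
  have hcl2 : Cl (St s × Fin (ω + 1)) (2 ^ 2 ^ mm k s) ((k + 12) + 1)
      fun y => decide (Has k n s (OSp p (ex2 s ω y)) L) :=
    h1 _ _ _ _ _ _ hcl le_rfl (by omega) hS1
  have hinj : Function.Injective fun x : St s × Fin (ω + 1) => enc s ω x.1.1 x.2 := by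
    intro x x' hx
    have h := h4 s ω x.1.1 x'.1.1 x.2 x'.2 x.1.2 x'.1.2 (by omega) (by omega) hx
    exact Prod.ext (Subtype.ext h.1) (Fin.ext h.2)
  have hnw := h3 l (s + ω + 2) (2 ^ 2 ^ mm k s) (k + 12) w M (St s × Fin (ω + 1))
    (fun x => enc s ω x.1.1 x.2) (fun y => decide (Has k n s (OSp p (ex2 s ω y)) L)) hM hw hlw
    (Nat.pow_le_pow_right (by norm_num) hn2) hinj hcl2
  have hzero : mn (fun z : (Fin l → Bool) × (Fin l → Bool) → Bool => bi
      ((fun y => decide (Has k n s (OSp p (ex2 s ω y)) L)) fun x : St s × Fin (ω + 1) =>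
        gen M z (enc s ω x.1.1 x.2))) = 0 := by
    have h : ∀ z : (Fin l → Bool) × (Fin l → Bool) → Bool, bi
      ((fun y => decide (Has k n s (OSp p (ex2 s ω y)) L)) fun x : St s × Fin (ω + 1) =>
        gen M z (enc s ω x.1.1 x.2)) = 0 := by
      intro z
      have hnot : ¬ Has k n s (OSp p (ex2 s ω fun x => gen M z (enc s ω x.1.1 x.2))) L := by
        intro hh
        have a1 := h8 _ (siz s ω l (dic k s)) s k n L hh fun m hm =>
          h7 s ω l (dic k s) M z p m hp hm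
        exact hL (h9.2 k n _ _ L hsz a1)
      simp only [hnot, decide_false]
      simp [bi]
    simp only [h]
    simp [mn]
  have e1 := hnw.trans (add_le_add hzero.le hbig)
  rw [zero_add] at e1
  exact e1

end Pool.Agent.H85.OMN
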